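import Pool.Agent.helper60.DK.Spec

/-! Row dk:PAR: parity of the polynomials D_n. -/

namespace Pool.Agent.helper60.DK

open Polynomial Finset

/-- a polynomial solution of the hypergeometric equation with vanishing constant term is zero -/
theorem PAR_unique (n : ℕ) (f : ℤ[X])
    (hf : X * (1 + X) * derivative (derivative f) + (1 + 2 * X) * derivative f
      = (n : ℤ[X]) * ((n : ℤ[X]) + 1) * f) (h0 : f.coeff 0 = 0) : f = 0 := by
  have e1 : X * (1 + X) * derivative (derivative f) + (1 + 2 * X) * derivative f
      = X * derivative (derivative f) + X * (X * derivative (derivative f))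
        + derivative f + C 2 * (X * derivative f) := by
    rw [show (C 2 : ℤ[X]) = 2 from rfl]; ring
  have e2 : (n : ℤ[X]) * ((n : ℤ[X]) + 1) * f = C ((n : ℤ) * ((n : ℤ) + 1)) * f := by
    rw [C_mul, C_add, C_1, show (C (n : ℤ) : ℤ[X]) = (n : ℤ[X]) by simp]
  rw [e1, e2] at hf
  ext k
  rw [coeff_zero]
  induction k with
  | zero => exact h0
  | succ k ih =>
    have h := congrArg (fun g => coeff g k) hf
    simp only [coeff_add, coeff_C_mul, co1, co2, co2', coeff_derivative, ih, mul_zero, add_zero] at h
    have hk : ((k : ℤ) + 1) * ((k : ℤ) + 1) ≠ 0 := by positivity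
    have h' : ((k : ℤ) + 1) * ((k : ℤ) + 1) * f.coeff (k + 1) = 0 := by
      linear_combination h
    rcases mul_eq_zero.mp h' with h1 | h1
    · exact absurd h1 hk
    · exact h1

theorem PAR : PAR_stmt := by
  intro n
  have hode := ode_two n
  have hq : derivative (-1 - X : ℤ[X]) = -1 := by
    rw [derivative_sub, derivative_neg, derivative_one, derivative_X]; ring
  have h1 : derivative ((Dz n).comp (-1 - X)) = -((derivative (Dz n)).comp (-1 - X)) := by
    rw [derivative_comp, hq]; ring
  have h2 : derivative (derivative ((Dz n).comp (-1 - X)))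
      = (derivative (derivative (Dz n))).comp (-1 - X) := by
    rw [h1, derivative_neg, derivative_comp, hq]; ring
  have hc := congrArg (fun g : ℤ[X] => g.comp (-1 - X)) hode
  simp only [add_comp, mul_comp, X_comp, one_comp, natCast_comp, ofNat_comp] at hc
  have hsub : (Dz n).comp (-1 - X) - (-1) ^ n * Dz n = 0 := by
    apply PAR_unique n
    · have hs : derivative ((-1 : ℤ[X]) ^ n) = 0 := by
        rw [derivative_pow, derivative_neg, derivative_one]; ring
      have d1 : derivative ((Dz n).comp (-1 - X) - (-1) ^ n * Dz n)
          = -((derivative (Dz n)).comp (-1 - X)) - (-1) ^ n * derivative (Dz n) := by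
        rw [derivative_sub, h1, derivative_mul, hs]; ring
      have d2 : derivative (derivative ((Dz n).comp (-1 - X) - (-1) ^ n * Dz n))
          = (derivative (derivative (Dz n))).comp (-1 - X)
            - (-1) ^ n * derivative (derivative (Dz n)) := by
        have h3 : derivative ((derivative (Dz n)).comp (-1 - X))
            = -((derivative (derivative (Dz n))).comp (-1 - X)) := by
          rw [derivative_comp, hq]; ring
        rw [d1, derivative_sub, derivative_neg, h3, derivative_mul, hs]
        ring
      rw [d2, d1]
      push_cast at hc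
      linear_combination hc - (-1) ^ n * hode
    · rw [coeff_sub, coeff_zero_eq_eval_zero, eval_comp, coeff_zero_eq_eval_zero, eval_mul]
      have e0 : eval 0 (-1 - X : ℤ[X]) = -1 := by simp
      rw [e0, Dz_eval_neg_one]
      have e1 : eval 0 (Dz n) = 1 := by
        rw [← coeff_zero_eq_eval_zero]; exact Dz_coeff_zero n
      rw [e1]
      simp
  exact sub_eq_zero.mp hsub

end Pool.Agent.helper60.DK
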